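import Mathlib
import Pool.Agent.MP_33dedf_lc.Defs
import Pool.Agent.MP_33dedf_lc.DimDefs
import Pool.Agent.MP_33dedf_lc.NegativeMain

/-!
# A negative answer to the question

For `Z = ∅` there is a real number `s` with `0 < s < 1` such that every sequence `X` with
`dim X = s` has some `Y ≤_T X'` with `dim^{0'} Y > s`.

Idea: the jump of `X` computes the increasing approximations `inf_{n ≥ k} K(X ↾ n) / n` of the
number `s = dim X`.  If `s` can moreover be approximated from the right with the oracle `0'`,
then `X'` computes `s`.  Now let `s` code (in base four) a sequence `Y` which is random relative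
to `0'` and the limit of a lexicographically decreasing `0'`-computable sequence of paths.
-/

set_option autoImplicit false

namespace Pool.Agent.Results.MP_33dedf_lc.NoSuchSequence

open Pool.Agent.MP_33dedf_lc

theorem result : ∃ (Z : ℕ → Bool) (s : ℝ), 0 < s ∧ s < 1 ∧
    ∀ X : ℕ → Bool, effDim Z X = ENNReal.ofReal s →
      ∃ Y : ℕ → Bool, TuringReducible (chi Y) (chi (jump X)) ∧
        ENNReal.ofReal s < effDim zeroJump Y := by
  obtain ⟨s, Y, h0, h1, h2, h3⟩ := exists_real
  exact ⟨emptySeq, s, h0, h1, fun X hX => ⟨Y, chi_iff.2 (h3 X hX), h2⟩⟩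

end Pool.Agent.Results.MP_33dedf_lc.NoSuchSequence
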